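import Pool.Agent.K3h45.ST.Stm

/-!
# Twists with infinite towers: the arithmetic
-/

set_option autoImplicit false
set_option linter.unusedSectionVars false

namespace Pool.Agent.K3h91.ST

open Pool.Agent.R384 QuadraticAlgebra

open scoped NumberTheorySymbols Classical

/-- the inert primes used -/
structure Lg (P l : ℕ) : Prop where
  pr : l.Prime
  four : l % 4 = 1
  seven : l % 7 = 3
  c : J((l : ℤ) | P) = -1

lemma Lg.prime {P l : ℕ} (h : Lg P l) : Prime ((l : ℤ) : OO) := by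
  have : Fact l.Prime := ⟨h.pr⟩
  apply inert_prime
  have ho : Odd l := Nat.odd_iff.2 (by have := h.four; omega)
  rw [jacobiSym.neg _ ho, ZMod.χ₄_nat_one_mod_four h.four, one_mul]
  have h1 : J(((7 : ℕ) : ℤ) | l) = J((l : ℤ) | 7) :=
    jacobiSym.quadratic_reciprocity_one_mod_four' (by decide) h.four
  have h2 : J((l : ℤ) | 7) = J(3 | 7) := by
    rw [jacobiSym.mod_left]
    have : ((l : ℤ)) % ((7 : ℕ) : ℤ) = 3 := by have := h.seven; omega
    rw [this]
  have h3 : J(3 | 7) = -1 := by norm_num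
  rw [h2, h3] at h1
  exact_mod_cast h1

lemma Lg.Pr {P l : ℕ} (h : Lg P l) : Pr ((l : ℤ) : OO) := by
  refine ⟨h.prime, ?_⟩
  obtain ⟨k, hk⟩ : ∃ k : ℤ, (l : ℤ) = 4 * k + 1 := ⟨(l : ℤ) / 4, by have := h.four; omega⟩
  refine ⟨(k : OO), ?_⟩
  rw [hk]
  push_cast
  ring

lemma qs_ll {P l l' : ℕ} (h : Lg P l) (h' : Lg P l') (hne : l ≠ l') :
    qs ((l : ℤ) : OO) ((l' : ℤ) : OO) = 0 := by
  have : Fact l.Prime := ⟨h.pr⟩
  rw [qs_zero]
  refine inert_int (Or.inl rfl) (by rintro rfl; have := h.four; omega) h.prime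
    (by have := h.four; omega) ?_
  intro h1
  exact hne ((Nat.prime_dvd_prime_iff_eq h.pr h'.pr).1 (by exact_mod_cast h1))

section star

variable {P : ℕ} (hP : P.Prime) {q₀ : OO} (hq₀ : Pr q₀) (hn : nn q₀ = P)

include hP hn in
lemma ne_lp {l : ℕ} : ((l : ℤ) : OO) ≠ q₀ := by
  intro h
  rw [← h, nn_int] at hn
  have h2 : l ^ 2 = P := by exact_mod_cast hn
  rw [← h2] at hP
  exact Nat.Prime.not_prime_pow le_rfl hP

include hP hq₀ hn

lemma qs_lp {l : ℕ} (h : Lg P l) : qs ((l : ℤ) : OO) q₀ = 1 := by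
  have : Fact P.Prime := ⟨hP⟩
  rw [recip h.Pr hq₀ (ne_lp hP hn)]
  have h01 : ∀ a : ZMod 2, ¬ a = 0 → a = 1 := by decide
  apply h01
  have hnd : ¬ ((P : ℕ) : ℤ) ∣ (l : ℤ) := by
    intro h1
    have h2 := h.c
    rw [← jacobiSym.legendreSym.to_jacobiSym,
      (legendreSym.eq_zero_iff P (l : ℤ)).2 ((ZMod.intCast_zmod_eq_zero_iff_dvd _ _).2 h1)] at h2
    norm_num at h2
  rw [qs_zero, split_int hq₀.prime hn hnd, h.c]
  norm_num

/-- the star -/
lemma star {n : ℕ} (l : Fin n → ℕ) (hl : ∀ i, Lg P (l i)) (hinj : Function.Injective l) :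
    Indec (Fin.cons q₀ (fun i => ((l i : ℤ) : OO)) : Fin (n + 1) → OO) := by
  classical
  set q : Fin (n + 1) → OO := Fin.cons q₀ (fun i => ((l i : ℤ) : OO)) with hq
  have hq0 : q 0 = q₀ := rfl
  have hqs : ∀ i : Fin n, q i.succ = ((l i : ℤ) : OO) := fun i => rfl
  have key : ∀ (i : Fin n) (T : Finset (Fin (n + 1))), i.succ ∉ T →
      (Sqm (q i.succ) (∏ k ∈ T, q k) ↔ (0 : Fin (n + 1)) ∉ T) := by
    intro i T hi
    have hterm : ∀ k ∈ T, k ≠ 0 → qs (q i.succ) (q k) = 0 := by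
      intro k hk hk0
      obtain ⟨k', rfl⟩ := Fin.exists_succ_eq.2 hk0
      rw [hqs, hqs]
      refine qs_ll (hl i) (hl k') ?_
      intro h
      apply hi
      rw [hinj h]
      exact hk
    have hnd : ∀ k ∈ T, ¬ q i.succ ∣ q k := by
      intro k hk
      by_cases hk0 : k = 0
      · rw [hk0, hq0, hqs]
        exact not_dvd (hl i).Pr hq₀ (ne_lp hP hn)
      · obtain ⟨k', rfl⟩ := Fin.exists_succ_eq.2 hk0
        rw [hqs, hqs]
        refine not_dvd (hl i).Pr (hl k').Pr ?_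
        intro h
        apply hi
        have h2 : l i = l k' := by
          have := congrArg QuadraticAlgebra.re h
          simpa using this
        rw [hinj h2]
        exact hk
    rw [← qs_zero, hqs, qs_prod (hl i).Pr T q hnd]
    by_cases h0 : (0 : Fin (n + 1)) ∈ T
    · rw [← Finset.add_sum_erase T _ h0, Finset.sum_eq_zero, hq0, qs_lp hP hq₀ hn (hl i)]
      · simp [h0]
      · intro k hk
        have := hterm k (Finset.mem_of_mem_erase hk) (Finset.ne_of_mem_erase hk)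
        rwa [hqs] at this
    · rw [Finset.sum_eq_zero]
      · simp [h0]
      · intro k hk
        have := hterm k hk (fun h => h0 (h ▸ hk))
        rwa [hqs] at this
  intro S h1 h2
  have h3 : ∀ i : Fin n, i.succ ∈ S ↔ (0 : Fin (n + 1)) ∈ S := by
    intro i
    constructor
    · intro hi
      have := (key i Sᶜ (by simpa using hi)).1 (h2 _ hi)
      simpa using this
    · intro h0
      by_contra hi
      exact (key i S hi).1 (h1 _ hi) h0
  by_cases h0 : (0 : Fin (n + 1)) ∈ S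
  · right
    ext k
    simp only [Finset.mem_univ, iff_true]
    by_cases hk0 : k = 0
    · rwa [hk0]
    · obtain ⟨k', rfl⟩ := Fin.exists_succ_eq.2 hk0
      exact (h3 k').2 h0
  · left
    ext k
    simp only [Finset.notMem_empty, iff_false]
    by_cases hk0 : k = 0
    · rwa [hk0]
    · obtain ⟨k', rfl⟩ := Fin.exists_succ_eq.2 hk0
      exact fun h => h0 ((h3 k').1 h)

/-- the factorizations used -/
lemma fac {n : ℕ} (l : Fin n → ℕ) (hl : ∀ i, Lg P (l i)) (hinj : Function.Injective l)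
    (h5 : (8 : OO) ∣ q₀ * ∏ i, ((l i : ℤ) : OO) - 5) :
    Fac (Fin.cons q₀ (fun i => ((l i : ℤ) : OO)) : Fin (n + 1) → OO) := by
  refine ⟨?_, ?_, ?_, star hP hq₀ hn l hl hinj⟩
  · intro i
    refine Fin.cases hq₀ (fun i => (hl i).Pr) i
  · rw [Fin.cons_injective_iff]
    refine ⟨?_, ?_⟩
    · rintro ⟨i, hi⟩
      exact ne_lp hP hn hi
    · intro a b h
      apply hinj
      have := congrArg QuadraticAlgebra.re h
      simpa using this
  · rw [Fin.prod_univ_succ]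
    simpa using h5

end star

/-- quadratic non residues -/
lemma exists_nrf : ∃ nr : ℕ → ℕ, ∀ p : ℕ, p.Prime → p ≠ 2 → ¬ p ∣ nr p ∧ J((nr p : ℤ) | p) = -1 := by
  have h : ∀ p : ℕ, ∃ n : ℕ, p.Prime → p ≠ 2 → ¬ p ∣ n ∧ J((n : ℤ) | p) = -1 := by
    intro p
    by_cases h : p.Prime ∧ p ≠ 2
    · obtain ⟨n, hn⟩ := exists_nr h.1 h.2
      exact ⟨n, fun _ _ => hn⟩
    · exact ⟨0, fun h1 h2 => absurd ⟨h1, h2⟩ h⟩
  choose nr hnr using h
  exact ⟨nr, hnr⟩

section main

variable {m : OO} (hm : m ≠ 0)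

include hm

/-- the twists -/
theorem data : ∃ (P : ℕ) (q₀ : OO), P.Prime ∧ P ≠ 2 ∧ P ≠ 7 ∧ P ∉ T0 m ∧ Pr q₀ ∧ nn q₀ = P ∧
    {l : ℕ | Lg P l ∧ (8 : OO) ∣ q₀ * ((l : ℤ) : OO) - 5 ∧
      ∀ π : OO, Pr π → π ∣ m → ¬ Sqm π (q₀ * ((l : ℤ) : OO))}.Infinite := by
  obtain ⟨nr, hnr⟩ := exists_nrf
  -- the prime P
  set g₁ : ℕ → ℕ := fun p => if J(-7 | p) = -1 then nr p else 1 with hg₁
  have hg₁' : ∀ p ∈ T0 m, ¬ p ∣ g₁ p := by
    intro p hp
    obtain ⟨h1, h2, h3⟩ := T0_prime hp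
    simp only [hg₁]
    split_ifs
    · exact (hnr p h1 h2).1
    · intro h
      exact h1.one_lt.ne' (Nat.dvd_one.1 h)
  obtain ⟨P, hP, hP56, hPg⟩ := (crt (T0 m) (fun p hp => T0_prime hp) (a₀ := 1) (by norm_num) g₁
    hg₁').nonempty
  have hPT : P ∉ T0 m := by
    intro h
    have h1 := hPg P h
    rw [Nat.mod_self] at h1
    exact hg₁' P h (Nat.dvd_of_mod_eq_zero h1.symm)
  have hP56' : P % 56 = 1 := hP56
  have hP2 : P ≠ 2 := by rintro rfl; omega
  have hP7 : P ≠ 7 := by rintro rfl; omega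
  obtain ⟨q₀, hq₀, hq₀n, hq₀i⟩ := exists_norm hP hP56'
  have FP : Fact P.Prime := ⟨hP⟩
  -- the prime l
  set g₂ : ℕ → ℕ := fun p => if p = P then nr p else
    if ∃ π : OO, Pr π ∧ nn π = p ∧ Sqm π q₀ then nr p else 1 with hg₂
  have hT1 : ∀ p ∈ insert P (T0 m), p.Prime ∧ p ≠ 2 ∧ p ≠ 7 := by
    intro p hp
    rcases Finset.mem_insert.1 hp with rfl | hp
    · exact ⟨hP, hP2, hP7⟩
    · exact T0_prime hp
  have hg₂' : ∀ p ∈ insert P (T0 m), ¬ p ∣ g₂ p := by
    intro p hp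
    obtain ⟨h1, h2, h3⟩ := hT1 p hp
    simp only [hg₂]
    split_ifs
    · exact (hnr p h1 h2).1
    · exact (hnr p h1 h2).1
    · intro h
      exact h1.one_lt.ne' (Nat.dvd_one.1 h)
  set a₀ : ℕ := if (8 : ℤ) ∣ q₀.re - 1 then 45 else 17 with ha₀
  have hinf := crt (insert P (T0 m)) hT1 (a₀ := a₀) (by rw [ha₀]; split_ifs <;> norm_num) g₂ hg₂'
  refine ⟨P, q₀, hP, hP2, hP7, hPT, hq₀, hq₀n, hinf.mono ?_⟩
  rintro l ⟨hl, hl56, hlg⟩
  have Fl : Fact l.Prime := ⟨hl⟩
  have hl56' : l % 56 = 45 ∧ (8 : ℤ) ∣ q₀.re - 1 ∨ l % 56 = 17 ∧ (8 : ℤ) ∣ q₀.re - 5 := by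
    rw [hl56, ha₀]
    have := hq₀.re
    split_ifs with h
    · left; exact ⟨by norm_num, h⟩
    · right; exact ⟨by norm_num, by omega⟩
  have hl4 : l % 4 = 1 := by omega
  have hl7 : l % 7 = 3 := by omega
  have hlnd : ∀ p ∈ insert P (T0 m), ¬ p ∣ l := by
    intro p hp h
    have h1 := hlg p hp
    rw [Nat.mod_eq_zero_of_dvd h] at h1
    exact hg₂' p hp (Nat.dvd_of_mod_eq_zero h1.symm)
  have hLg : Lg P l := by
    refine ⟨hl, hl4, hl7, ?_⟩
    rw [jac_mod (hlg P (Finset.mem_insert_self _ _))]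
    simp only [hg₂, if_true]
    exact (hnr P hP hP2).2
  have hlPr : Pr ((l : ℤ) : OO) := hLg.Pr
  refine ⟨hLg, ?_, ?_⟩
  · show (8 : OO) ∣ q₀ * ((l : ℤ) : OO) - 5
    have h8 : ∃ c : ℤ, (8 : ℤ) ∣ q₀.re - c ∧ (8 : ℤ) ∣ (l : ℤ) * c - 5 := by
      rcases hl56' with ⟨h1, h2⟩ | ⟨h1, h2⟩
      · exact ⟨1, h2, by omega⟩
      · exact ⟨5, h2, by omega⟩
    obtain ⟨c, ⟨u, hu⟩, ⟨v, hv⟩⟩ := h8
    obtain ⟨t, ht⟩ := hq₀i
    have h := (int_dvd (e := 8) (x := q₀ * ((l : ℤ) : OO) - 5)).2 ⟨⟨u * l + v, by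
      simp
      linear_combination (l : ℤ) * hu + hv⟩, ⟨t * l, by
      simp
      linear_combination (l : ℤ) * ht⟩⟩
    exact_mod_cast h
  · intro π hπ hd
    rw [← qs_zero]
    rcases hπ.cases with ⟨p, hp, hp4, hn⟩ | ⟨l', e, hl', hl2, he, he4, hqe⟩
    · have Fp : Fact p.Prime := ⟨hp⟩
      have hpT := (T0_split hm hπ hd hp hn).1
      have hpT1 : p ∈ insert P (T0 m) := Finset.mem_insert_of_mem hpT
      have hpP : p ≠ P := by
        rintro rfl
        exact hPT hpT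
      have hnd : ¬ ((p : ℕ) : ℤ) ∣ (l : ℤ) := fun h => hlnd p hpT1 (by exact_mod_cast h)
      have nd1 : ¬ π ∣ q₀ := by
        refine not_dvd hπ hq₀ ?_
        rintro rfl
        rw [hn] at hq₀n
        exact hpP (by exact_mod_cast hq₀n)
      have nd2 : ¬ π ∣ ((l : ℤ) : OO) := fun h => hnd ((split_dvd hπ.prime hn _).1 h)
      have hl1 : Sqm π ((l : ℤ) : OO) ↔ J((g₂ p : ℤ) | p) = 1 := by
        rw [split_int hπ.prime hn hnd, jac_mod (hlg p hpT1)]
      rw [qs_mul hπ nd1 nd2]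
      by_cases hsq : ∃ π : OO, Pr π ∧ nn π = p ∧ Sqm π q₀
      · have e1 : g₂ p = nr p := by
          simp only [hg₂]
          rw [if_neg hpP, if_pos hsq]
        rw [e1, (hnr p hp (T0_prime hpT).2.1).2] at hl1
        have hl3 : qs π ((l : ℤ) : OO) ≠ 0 := by
          rw [Ne, qs_zero, hl1]
          norm_num
        -- the symbol of q₀
        have hq1 : qs π q₀ = 0 := by
          obtain ⟨π', hπ', hn', hs'⟩ := hsq
          by_cases hππ : π' = π
          · rw [← hππ, qs_zero]; exact hs'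
          · have h5 : π' ∣ π * cj π := by
              rw [mul_cj, hn, ← hn', ← mul_cj]
              exact Dvd.intro _ rfl
            have h6 : π' = cj π := by
              by_contra h7
              rcases hπ'.prime.dvd_or_dvd h5 with h8 | h8
              · exact not_dvd hπ' hπ hππ h8
              · exact not_dvd hπ' hπ.cj h7 h8
            have h7 : qs π (cj q₀) = 0 := by
              rw [qs_zero, ← sqm_cj, cj_cj, ← h6]
              exact hs'
            have nd3 : ¬ π ∣ cj q₀ := by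
              intro h8
              have h9 : π ∣ ((P : ℤ) : OO) := by
                rw [← hq₀n, ← mul_cj]
                exact Dvd.dvd.mul_left h8 _
              have h10 := (split_dvd hπ.prime hn _).1 h9
              exact hpP ((Nat.prime_dvd_prime_iff_eq hp hP).1 (by exact_mod_cast h10))
            have h8 : qs π (q₀ * cj q₀) = 0 := by
              rw [mul_cj, hq₀n, qs_zero]
              have hPp : ¬ ((p : ℕ) : ℤ) ∣ (P : ℤ) := by
                intro h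
                exact hpP ((Nat.prime_dvd_prime_iff_eq hp hP).1 (by exact_mod_cast h))
              rw [split_int hπ.prime hn hPp, jac_mod (hPg p hpT)]
              have e2 : g₁ p = 1 := by
                simp only [hg₁]
                rw [if_neg]
                intro h
                exact not_prime_of_norm hp hπ.prime hn (inert_prime h)
              rw [e2, Nat.cast_one, jacobiSym.one_left]
            rw [qs_mul hπ nd1 nd3, h7, add_zero] at h8
            exact h8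
        rw [hq1, zero_add]
        exact hl3
      · have e1 : g₂ p = 1 := by
          simp only [hg₂]
          rw [if_neg hpP, if_neg hsq]
        rw [e1, Nat.cast_one, jacobiSym.one_left] at hl1
        have hl3 : qs π ((l : ℤ) : OO) = 0 := by
          rw [qs_zero, hl1]
        rw [hl3, add_zero, qs_zero]
        intro h
        exact hsq ⟨π, hπ, hn, h⟩
    · have Fl' : Fact l'.Prime := ⟨hl'⟩
      subst hqe
      have hl7' : l' ≠ 7 := by
        rintro rfl
        exact inert_seven he hπ.prime (by norm_num)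
      have hlT : l' ∈ T0 m := by
        refine mem_T0 hm hl' hl2 hl7' ?_
        obtain ⟨t, ht⟩ := hd
        rw [ht, nn_mul, nn_int]
        rcases he with rfl | rfl
        · exact ⟨l' * nn t, by ring⟩
        · exact ⟨l' * nn t, by ring⟩
      have hlT1 : l' ∈ insert P (T0 m) := Finset.mem_insert_of_mem hlT
      have hlP : l' ≠ P := by
        rintro rfl
        exact hPT hlT
      have hnd : ¬ ((l' : ℕ) : ℤ) ∣ (l : ℤ) := fun h => hlnd l' hlT1 (by exact_mod_cast h)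
      have nd1 : ¬ ((e : ℤ) : OO) ∣ q₀ := by
        rw [inert_nn he hπ.prime, hq₀n]
        intro h
        exact hlP ((Nat.prime_dvd_prime_iff_eq hl' hP).1 (by exact_mod_cast h))
      have nd2 : ¬ ((e : ℤ) : OO) ∣ ((l : ℤ) : OO) := by
        rw [inert_nn he hπ.prime, nn_int]
        intro h
        have hlp' : Prime (l' : ℤ) := Nat.prime_iff_prime_int.1 hl'
        exact hnd (hlp'.dvd_of_dvd_pow h)
      have h1 : qs ((e : ℤ) : OO) ((l : ℤ) : OO) = 0 := by
        rw [qs_zero]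
        exact inert_int he hl2 hπ.prime he4 hnd
      rw [qs_mul hπ nd1 nd2, h1, add_zero, qs_zero, inert_symb he hl2 hπ.prime he4 nd1,
        hq₀n, jac_mod (hPg l' hlT)]
      have e2 : g₁ l' = nr l' := by
        simp only [hg₁]
        rw [if_pos (inert_neg he hl2 hπ.prime)]
      rw [e2, (hnr l' hl' hl2).2]
      norm_num

omit hm in
/-- the sequence -/
theorem seq {P : ℕ} (hP : P.Prime) (hP2 : P ≠ 2) (hP7 : P ≠ 7) (hPT : P ∉ T0 m) :
    {l : ℕ | Lg P l ∧ l % 8 = 1 ∧ ∀ p ∈ T0 m, l % p = 1 % p}.Infinite := by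
  obtain ⟨nr, hnr⟩ := exists_nrf
  set g : ℕ → ℕ := fun p => if p = P then nr p else 1 with hg
  have hT1 : ∀ p ∈ insert P (T0 m), p.Prime ∧ p ≠ 2 ∧ p ≠ 7 := by
    intro p hp
    rcases Finset.mem_insert.1 hp with rfl | hp
    · exact ⟨hP, hP2, hP7⟩
    · exact T0_prime hp
  have hg' : ∀ p ∈ insert P (T0 m), ¬ p ∣ g p := by
    intro p hp
    obtain ⟨h1, h2, h3⟩ := hT1 p hp
    simp only [hg]
    split_ifs
    · exact (hnr p h1 h2).1
    · intro h
      exact h1.one_lt.ne' (Nat.dvd_one.1 h)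
  refine (crt (insert P (T0 m)) hT1 (a₀ := 17) (by norm_num) g hg').mono ?_
  rintro l ⟨hl, hl56, hlg⟩
  refine ⟨⟨hl, by omega, by omega, ?_⟩, by omega, ?_⟩
  · rw [jac_mod (hlg P (Finset.mem_insert_self _ _))]
    simp only [hg, if_true]
    exact (hnr P hP hP2).2
  · intro p hp
    rw [hlg p (Finset.mem_insert_of_mem hp)]
    have hpP : p ≠ P := by
      rintro rfl
      exact hPT hp
    simp only [hg]
    rw [if_neg hpP]

/-- the primes of the sequence are squares modulo the divisors of `m` -/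
lemma sq_one {π : OO} (hπ : Pr π) (hd : π ∣ m) {l : ℕ} (hl : ∀ p ∈ T0 m, l % p = 1 % p) :
    ¬ π ∣ ((l : ℤ) : OO) ∧ Sqm π ((l : ℤ) : OO) := by
  have hnd : ∀ p ∈ T0 m, ¬ p ∣ l := by
    intro p hp h
    have h1 := hl p hp
    have h2 := (T0_prime hp).1.one_lt
    rw [Nat.mod_eq_zero_of_dvd h, Nat.mod_eq_of_lt h2] at h1
    exact zero_ne_one h1
  rcases hπ.cases with ⟨p, hp, hp4, hn⟩ | ⟨l', e, hl', hl2, he, he4, hqe⟩
  · have Fp : Fact p.Prime := ⟨hp⟩
    have hpT := (T0_split hm hπ hd hp hn).1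
    have hnd' : ¬ ((p : ℕ) : ℤ) ∣ (l : ℤ) := fun h => hnd p hpT (by exact_mod_cast h)
    refine ⟨fun h => hnd' ((split_dvd hπ.prime hn _).1 h), ?_⟩
    rw [split_int hπ.prime hn hnd', jac_mod (hl p hpT), Nat.cast_one, jacobiSym.one_left]
  · have Fl' : Fact l'.Prime := ⟨hl'⟩
    subst hqe
    have hl7' : l' ≠ 7 := by
      rintro rfl
      exact inert_seven he hπ.prime (by norm_num)
    have hlT : l' ∈ T0 m := by
      refine mem_T0 hm hl' hl2 hl7' ?_
      obtain ⟨t, ht⟩ := hd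
      rw [ht, nn_mul, nn_int]
      rcases he with rfl | rfl
      · exact ⟨l' * nn t, by ring⟩
      · exact ⟨l' * nn t, by ring⟩
    have hnd' : ¬ ((l' : ℕ) : ℤ) ∣ (l : ℤ) := fun h => hnd l' hlT (by exact_mod_cast h)
    refine ⟨?_, inert_int he hl2 hπ.prime he4 hnd'⟩
    rw [inert_nn he hπ.prime, nn_int]
    intro h
    have hlp' : Prime (l' : ℤ) := Nat.prime_iff_prime_int.1 hl'
    exact hnd' (hlp'.dvd_of_dvd_pow h)

end main

theorem t_INF : Pool.Agent.K3h45.ST.S_INF := by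
  intro m hm hs
  obtain ⟨P, q₀, hP, hP2, hP7, hPT, hq₀, hq₀n, hinf⟩ := data hm
  refine (hinf.image (f := fun l : ℕ => q₀ * ((l : ℤ) : OO)) ?_).mono ?_
  · intro a _ b _ h
    have h1 := mul_left_cancel₀ hq₀.prime.ne_zero h
    have := congrArg QuadraticAlgebra.re h1
    simpa using this
  rintro _ ⟨l, ⟨hLg, h5, hkey⟩, rfl⟩
  have hnsq : ∀ x : OO, (∀ π : OO, Pr π → π ∣ m → ¬ Sqm π x) →
      ∀ π : OO, Prime π → ¬ π ∣ 2 → π ∣ m → ¬ Sqm π x := by
    intro x hx π hπ hπ2 hd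
    rcases pr_of_neg_one hπ hπ2 (hs π hπ hπ2 hd) with h | h
    · exact hx π h hd
    · have h1 := hx (-π) h ((neg_dvd).2 hd)
      rintro ⟨y, hy⟩
      exact h1 ⟨y, (neg_dvd).2 hy⟩
  have hfin : ({l' : ℕ | Lg P l' ∧ l' % 8 = 1 ∧ ∀ p ∈ T0 m, l' % p = 1 % p} \ {l}).Infinite :=
    (seq hP hP2 hP7 hPT).diff (Set.finite_singleton l)
  let e := Set.Infinite.natEmbedding _ hfin
  set f : ℕ → ℕ := fun k => (e k : ℕ) with hf
  have hfi : Function.Injective f := fun i j h => e.injective (Subtype.ext h)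
  have hfp : ∀ k, (Lg P (f k) ∧ f k % 8 = 1 ∧ ∀ p ∈ T0 m, f k % p = 1 % p) ∧ f k ≠ l := fun k =>
    ⟨(e k).2.1, (e k).2.2⟩
  have hfac : ∀ T : Finset ℕ, ∃ q : Fin (T.card + 1 + 1) → OO, Fac q ∧
      q₀ * ((l : ℤ) : OO) * ∏ j ∈ T, ((f j : ℤ) : OO) = ∏ i, q i := by
    intro T
    set k : Fin (T.card + 1) → ℕ := Fin.cons l (fun i => f (T.equivFin.symm i)) with hk
    have hprod : ∏ i, ((k i : ℤ) : OO) = ((l : ℤ) : OO) * ∏ j ∈ T, ((f j : ℤ) : OO) := by
      rw [Fin.prod_univ_succ]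
      simp only [hk, Fin.cons_zero, Fin.cons_succ]
      rw [Equiv.prod_comp T.equivFin.symm (fun x : T => ((f x : ℤ) : OO)),
        Finset.prod_coe_sort T (fun x => ((f x : ℤ) : OO))]
    have hkl : ∀ i, Lg P (k i) := by
      intro i
      refine Fin.cases hLg (fun i => (hfp _).1.1) i
    have hki : Function.Injective k := by
      rw [hk, Fin.cons_injective_iff]
      refine ⟨?_, fun a b h => ?_⟩
      · rintro ⟨i, hi⟩
        exact (hfp _).2 hi
      · exact T.equivFin.symm.injective (Subtype.ext (hfi h))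
    have h8 : (∏ j ∈ T, f j) % 8 = 1 := by
      rw [Finset.prod_nat_mod]
      simp [(hfp _).1.2.1]
    refine ⟨Fin.cons q₀ (fun i => ((k i : ℤ) : OO)), fac hP hq₀ hq₀n k hkl hki ?_, ?_⟩
    · rw [hprod]
      obtain ⟨u, hu⟩ := h5
      obtain ⟨v, hv⟩ : ∃ v : ℕ, ∏ j ∈ T, f j = 8 * v + 1 := ⟨(∏ j ∈ T, f j) / 8, by omega⟩
      have hv' : ∏ j ∈ T, ((f j : ℤ) : OO) = 8 * (v : OO) + 1 := by
        have := congrArg (fun a : ℕ => (a : OO)) hv
        push_cast at this ⊢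
        exact this
      rw [hv']
      refine ⟨u + q₀ * ((l : ℤ) : OO) * v, ?_⟩
      linear_combination hu
    · rw [Fin.prod_univ_succ]
      simp only [Fin.cons_zero, Fin.cons_succ]
      rw [hprod, mul_assoc]
  refine ⟨?_, hnsq _ hkey, f, hfi, fun j => ⟨(hfp j).1.1.pr, (hfp j).1.2.1, (hfp j).1.1.prime⟩,
    fun T => ⟨?_, ?_⟩⟩
  · obtain ⟨q, hq, hq'⟩ := hfac ∅
    rw [Finset.prod_empty, mul_one] at hq'
    exact ⟨q, hq, hq'⟩
  · obtain ⟨q, hq, hq'⟩ := hfac T
    exact ⟨_, q, hq, hq'⟩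
  · refine hnsq _ ?_
    intro π hπ hd
    have h1 := hkey π hπ hd
    have hnd : ¬ π ∣ q₀ * ((l : ℤ) : OO) := fun h => h1 ⟨0, by simpa using h⟩
    have h2 : ∀ j ∈ T, ¬ π ∣ ((f j : ℤ) : OO) := fun j _ => (sq_one hm hπ hd (hfp j).1.2.2).1
    have hnd2 : ¬ π ∣ ∏ j ∈ T, ((f j : ℤ) : OO) := by
      rw [Prime.dvd_finset_prod_iff hπ.prime]
      rintro ⟨j, hj, h3⟩
      exact h2 j hj h3
    rw [← qs_zero, qs_mul hπ hnd hnd2, qs_prod hπ T _ h2, Finset.sum_eq_zero, add_zero, qs_zero]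
    · exact h1
    · intro j _
      rw [qs_zero]
      exact (sq_one hm hπ hd (hfp j).1.2.2).2

end Pool.Agent.K3h91.ST
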